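import Pool.Agent.helper73.ASU.Spec

set_option autoImplicit false

/-! # ASU, row PVA8 -/

namespace Pool.Agent.ASU

open Finset

theorem PVA8_s (s : ℤ) (hs : s = 1 ∨ s = -1 ∨ s = 2 ∨ s = -2) (n : ℕ) (hn : Odd n) :
    jacobiSym s n = jacobiSym s (n % 8) := by
  have hd : 4 * s.natAbs ∣ 8 := by
    rcases hs with h | h | h | h <;> subst h <;> decide
  have ho : Odd (n % 8) := by
    rw [Nat.odd_iff] at hn ⊢
    omega
  rw [jacobiSym.mod_right s hn, jacobiSym.mod_right s ho, Nat.mod_mod_of_dvd n hd]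

theorem PVA8_q (n : ℕ) (d : ℕ) : qrSign n d = qrSign (n % 8) d := by
  have h : ((n : ℕ) : ZMod 4) = ((n % 8 : ℕ) : ZMod 4) := by
    rw [ZMod.natCast_eq_natCast_iff]
    unfold Nat.ModEq
    omega
  rw [qrSign, qrSign, h]

theorem PVA8_tri (s : ℤ) (n : ℕ) : |jacobiSym s n| ≤ 1 := by
  rcases jacobiSym.trichotomy s n with h | h | h <;> rw [h] <;> simp

theorem PVA8_m (m n : ℕ) (hn : Odd n) :
    jacobiSym ((m : ℤ) ^ 2) n = if Nat.Coprime (ordCompl[2] m) n then 1 else 0 := by
  have hco : Nat.Coprime (ordCompl[2] m) n ↔ Nat.Coprime m n := by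
    constructor
    · intro h
      have h2 : Nat.Coprime (ordProj[2] m) n := by
        apply Nat.Coprime.pow_left
        exact (Nat.coprime_two_left).mpr hn
      have h3 := Nat.Coprime.mul_left h2 h
      rwa [Nat.ordProj_mul_ordCompl_eq_self] at h3
    · intro h
      exact Nat.Coprime.coprime_dvd_left (Nat.ordCompl_dvd m 2) h
  by_cases h : Nat.Coprime m n
  · rw [if_pos (hco.mpr h)]
    exact jacobiSym.sq_one' (by rw [Int.gcd_natCast_natCast]; exact h)
  · rw [if_neg (fun h' => h (hco.mp h')), jacobiSym.pow_left]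
    have h0 : jacobiSym (m : ℤ) n = 0 := by
      rw [jacobiSym.eq_zero_iff]
      refine ⟨?_, ?_⟩
      · rintro rfl
        simp at hn
      · rw [Int.gcd_natCast_natCast]
        exact h
    rw [h0]
    norm_num

theorem PVA8 (hPV8 : PV8_stmt) : PVA8_stmt := by
  intro d m s hs hd hsq hd2 hm X
  set g := ordCompl[2] m with hg
  have hg1 : 1 ≤ g := Nat.ordCompl_pos 2 (by omega)
  have hg8 : Nat.Coprime g 8 := by
    have h1 : Nat.Coprime 2 g := Nat.coprime_ordCompl Nat.prime_two (by omega)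
    have h2 : Nat.Coprime (2 ^ 3) g := Nat.Coprime.pow_left 3 h1
    exact h2.symm
  have hterm : ∀ n : ℕ, Odd n → jacobiSym (s * d * m ^ 2) n =
      (jacobiSym s (n % 8) * qrSign (n % 8) d) * (if Nat.Coprime g n then jacobiSym (n : ℤ) d else 0) := by
    intro n hn
    rw [jacobiSym.mul_left, jacobiSym.mul_left, PVA8_m m n hn, PVA8_s s hs n hn,
      jacobiSym.quadratic_reciprocity' hd hn, PVA8_q n d]
    by_cases h : Nat.Coprime g n
    · rw [if_pos h, if_pos h]
      ring
    · rw [if_neg h, if_neg h]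
      ring
  have hsum : JS (s * d * m ^ 2) X = ∑ r ∈ ({1, 3, 5, 7} : Finset ℕ), (jacobiSym s r * qrSign r d) *
      ∑ z ∈ (Ioc 0 X).filter (fun z => z ≡ r [MOD 8]), (if Nat.Coprime g z then jacobiSym (z : ℤ) d else 0) := by
    rw [JS]
    rw [← Finset.sum_fiberwise_of_maps_to (t := ({1, 3, 5, 7} : Finset ℕ)) (g := fun n => n % 8)]
    · refine Finset.sum_congr rfl (fun r hr => ?_)
      have hr8 : r < 8 ∧ r % 2 = 1 := by
        simp only [Finset.mem_insert, Finset.mem_singleton] at hr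
        omega
      rw [Finset.mul_sum]
      have hset : ((range (X + 1)).filter Odd).filter (fun n => n % 8 = r) = (Ioc 0 X).filter (fun z => z ≡ r [MOD 8]) := by
        ext n
        rw [Finset.mem_filter, Finset.mem_filter, Finset.mem_filter, Finset.mem_range, Finset.mem_Ioc, Nat.odd_iff]
        have hme : n ≡ r [MOD 8] ↔ n % 8 = r := by
          unfold Nat.ModEq
          rw [Nat.mod_eq_of_lt hr8.1]
        rw [hme]
        omega
      rw [hset]
      refine Finset.sum_congr rfl (fun n hn => ?_)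
      rw [Finset.mem_filter] at hn
      have hn8 : n % 8 = r := by
        have := hn.2
        unfold Nat.ModEq at this
        rw [Nat.mod_eq_of_lt hr8.1] at this
        exact this
      have hno : Odd n := by
        rw [Nat.odd_iff]
        omega
      rw [hterm n hno, hn8]
    · intro n hn
      rw [Finset.mem_filter, Nat.odd_iff] at hn
      simp only [Finset.mem_insert, Finset.mem_singleton]
      omega
  rw [hsum]
  push_cast
  have hC0 : 0 ≤ √(d : ℝ) * (1 + Real.log d) := by
    have : 0 ≤ Real.log (d : ℝ) := Real.log_natCast_nonneg d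
    positivity
  have hdiv : (g.divisors.card : ℝ) ≤ (m.divisors.card : ℝ) := by
    exact_mod_cast Finset.card_le_card (Nat.divisors_subset_of_dvd (by omega) (Nat.ordCompl_dvd m 2))
  refine (Finset.abs_sum_le_sum_abs _ _).trans ?_
  have hb : ∀ r ∈ ({1, 3, 5, 7} : Finset ℕ), |((jacobiSym s r : ℤ) : ℝ) * ((qrSign r d : ℤ) : ℝ) *
      ∑ z ∈ (Ioc 0 X).filter (fun z => z ≡ r [MOD 8]), (((if Nat.Coprime g z then jacobiSym (z : ℤ) d else 0 : ℤ)) : ℝ)| ≤
      (m.divisors.card : ℝ) * (√(d : ℝ) * (1 + Real.log d)) := by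
    intro r _
    have h1 := hPV8 d g hd hsq hd2 hg1 hg8 r 0 X
    push_cast at h1
    rw [abs_mul, abs_mul]
    have h2 : |((jacobiSym s r : ℤ) : ℝ)| ≤ 1 := by exact_mod_cast PVA8_tri s r
    have h3 : |((qrSign r d : ℤ) : ℝ)| ≤ 1 := by
      rw [qrSign]
      exact_mod_cast PVA8_tri _ d
    have h4 : |((jacobiSym s r : ℤ) : ℝ)| * |((qrSign r d : ℤ) : ℝ)| ≤ 1 := by
      calc _ ≤ 1 * 1 := mul_le_mul h2 h3 (abs_nonneg _) zero_le_one
        _ = 1 := one_mul 1
    calc _ ≤ 1 * ((g.divisors.card : ℝ) * (√(d : ℝ) * (1 + Real.log d))) := by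
          push_cast
          exact mul_le_mul h4 h1 (abs_nonneg _) zero_le_one
      _ ≤ (m.divisors.card : ℝ) * (√(d : ℝ) * (1 + Real.log d)) := by
          rw [one_mul]
          exact mul_le_mul_of_nonneg_right hdiv hC0
  refine (Finset.sum_le_sum (g := fun _ => (m.divisors.card : ℝ) * (√(d : ℝ) * (1 + Real.log d))) (fun r hr => ?_)).trans (le_of_eq ?_)
  · have := hb r hr
    push_cast at this ⊢
    exact this
  · rw [Finset.sum_const]
    have : (({1, 3, 5, 7} : Finset ℕ)).card = 4 := by decide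
    rw [this]
    rw [nsmul_eq_mul]
    push_cast
    ring

end Pool.Agent.ASU
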