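import Pool.Agent.helper73.ASU.Spec

set_option autoImplicit false

/-! # ASU, row TR: the trace bounds all bilinear forms -/

namespace Pool.Agent.ASU

open Finset
open scoped ComplexOrder

/-- entries of a matrix power as a sum over paths -/
theorem TR_path {ι : Type} [Fintype ι] [DecidableEq ι] (H : Matrix ι ι ℂ) (j : ℕ) : ∀ x y : ι,
    (H ^ (j + 1)) x y = ∑ c : Fin j → ι, ∏ i : Fin (j + 1),
      H (@Fin.cons j (fun _ => ι) x c i) (@Fin.snoc j (fun _ => ι) c y i) := by
  induction j with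
  | zero =>
    intro x y
    simp [Fin.snoc]
  | succ j ih =>
    intro x y
    rw [pow_succ', Matrix.mul_apply]
    rw [← Equiv.sum_comp (Fin.consEquiv (fun _ => ι)), Fintype.sum_prod_type]
    refine Finset.sum_congr rfl (fun z _ => ?_)
    rw [ih z y, Finset.mul_sum]
    refine Finset.sum_congr rfl (fun c _ => ?_)
    have e1 : (@Fin.snoc (j + 1) (fun _ => ι) ((Fin.consEquiv (fun _ => ι)) (z, c)) y) =
        @Fin.cons (j + 1) (fun _ => ι) z (@Fin.snoc j (fun _ => ι) c y) := by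
      rw [Fin.cons_snoc_eq_snoc_cons]
      rfl
    rw [e1, Fin.prod_univ_succ (f := fun i => H (@Fin.cons (j + 1) (fun _ => ι) x ((Fin.consEquiv (fun _ => ι)) (z, c)) i)
      (@Fin.cons (j + 1) (fun _ => ι) z (@Fin.snoc j (fun _ => ι) c y) i))]
    rfl

theorem TR_trace {ι : Type} [Fintype ι] [DecidableEq ι] (H : Matrix ι ι ℂ) (k : ℕ) (hk : 1 ≤ k) :
    (H ^ k).trace = ∑ a : Fin k → ι, ∏ i : Fin k, H (a i) (rot a i) := by
  obtain ⟨j, rfl⟩ : ∃ j, k = j + 1 := ⟨k - 1, by omega⟩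
  rw [Matrix.trace, ← Equiv.sum_comp (Fin.consEquiv (fun _ => ι)), Fintype.sum_prod_type]
  refine Finset.sum_congr rfl (fun x _ => ?_)
  rw [Matrix.diag_apply, TR_path]
  refine Finset.sum_congr rfl (fun c _ => ?_)
  refine Finset.prod_congr rfl (fun i _ => ?_)
  rw [Fin.snoc_eq_cons_rotate]
  rfl

/-- the matrix `m m*` on `V` -/
noncomputable def TR_H {α β : Type} (m : α → β → ℂ) (V : Finset α) (W : Finset β) : Matrix ↥V ↥V ℂ :=
  fun x x' => ∑ y ∈ W, m x y * (starRingEnd ℂ) (m x' y)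

noncomputable def TR_M {α β : Type} (m : α → β → ℂ) (V : Finset α) (W : Finset β) : Matrix ↥V ↥W ℂ :=
  fun x y => m x y

theorem TR_H_eq {α β : Type} (m : α → β → ℂ) (V : Finset α) (W : Finset β) :
    TR_H m V W = TR_M m V W * (TR_M m V W).conjTranspose := by
  ext x x'
  rw [Matrix.mul_apply]
  simp only [TR_H, TR_M, Matrix.conjTranspose_apply]
  rw [← Finset.sum_coe_sort W (fun y => m x y * (starRingEnd ℂ) (m x' y))]
  rfl

theorem TR_TT {α β : Type} (m : α → β → ℂ) (V : Finset α) (W : Finset β) (k : ℕ) (hk : 1 ≤ k) :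
    TT m V W k = by classical exact ((TR_H m V W) ^ k).trace := by
  classical
  rw [TT, TR_trace _ k hk]
  have h1 : ∀ a : Fin k → α, ∑ b ∈ wd k W, ∏ i : Fin k, (m (a i) (b i) * (starRingEnd ℂ) (m (rot a i) (b i))) =
      ∏ i : Fin k, ∑ y ∈ W, (m (a i) y * (starRingEnd ℂ) (m (rot a i) y)) := by
    intro a
    rw [Finset.prod_univ_sum]
  rw [Finset.sum_congr rfl (fun a _ => h1 a)]
  symm
  refine Finset.sum_bij (fun (a : Fin k → ↥V) _ => fun i => (a i : α)) ?_ ?_ ?_ ?_
  · intro a _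
    rw [Fintype.mem_piFinset]
    intro i
    exact (a i).2
  · intro a _ a' _ h
    funext i
    exact Subtype.ext (congrFun h i)
  · intro b hb
    rw [Fintype.mem_piFinset] at hb
    exact ⟨fun i => ⟨b i, hb i⟩, Finset.mem_univ _, rfl⟩
  · intro a _
    rfl

/-- spectral part: the quadratic form is at most `L ∑ |u|²` if `L ^ k` is at least the trace -/
theorem TR_spec {ι : Type} [Fintype ι] [DecidableEq ι] (H : Matrix ι ι ℂ) (hH : H.PosSemidef) (k : ℕ) (hk : 1 ≤ k)
    (u : ι → ℂ) (S : ℝ) (hu : ∑ x, ‖u x‖ ^ 2 ≤ S) :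
    (star u ⬝ᵥ (H.mulVec u)).re ^ k ≤ S ^ k * (H ^ k).trace.re := by
  set U : Matrix ι ι ℂ := (hH.1.eigenvectorUnitary : Matrix ι ι ℂ) with hU
  set lam := hH.1.eigenvalues with hlam
  have hsp : H = U * Matrix.diagonal (fun i => ((lam i : ℝ) : ℂ)) * star U := by
    have := hH.1.spectral_theorem
    rw [Unitary.conjStarAlgAut_apply] at this
    exact this
  have hUU : star U * U = 1 := Unitary.coe_star_mul_self _
  have hUU' : U * star U = 1 := Unitary.coe_mul_star_self _
  have hpow : ∀ j : ℕ, H ^ j = U * Matrix.diagonal (fun i => ((lam i : ℝ) : ℂ) ^ j) * star U := by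
    intro j
    induction j with
    | zero => simp [hUU']
    | succ j ih =>
      rw [pow_succ, ih]
      conv_lhs => rw [hsp]
      have : U * Matrix.diagonal (fun i => ((lam i : ℝ) : ℂ) ^ j) * star U *
          (U * Matrix.diagonal (fun i => ((lam i : ℝ) : ℂ)) * star U) =
          U * (Matrix.diagonal (fun i => ((lam i : ℝ) : ℂ) ^ j) * (star U * U) *
            Matrix.diagonal (fun i => ((lam i : ℝ) : ℂ))) * star U := by
        simp only [Matrix.mul_assoc]
      rw [this, hUU, Matrix.mul_one, Matrix.diagonal_mul_diagonal]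
      simp only [pow_succ]
  have htr : (H ^ k).trace.re = ∑ i, lam i ^ k := by
    rw [hpow k, Matrix.trace_mul_cycle, hUU, Matrix.one_mul, Matrix.trace_diagonal]
    rw [Complex.re_sum]
    refine Finset.sum_congr rfl (fun i _ => ?_)
    rw [← Complex.ofReal_pow, Complex.ofReal_re]
  have hlam0 : ∀ i, 0 ≤ lam i := fun i => hH.eigenvalues_nonneg i
  set v : ι → ℂ := (star U).mulVec u with hv
  have hq : star u ⬝ᵥ (H.mulVec u) = ∑ i, ((lam i * ‖v i‖ ^ 2 : ℝ) : ℂ) := by
    conv_lhs => rw [hsp]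
    rw [← Matrix.mulVec_mulVec, ← Matrix.mulVec_mulVec, Matrix.dotProduct_mulVec]
    have e1 : Matrix.vecMul (star u) U = star v := by
      rw [hv, Matrix.star_mulVec]
      congr 1
      rw [← Matrix.star_eq_conjTranspose, star_star]
    rw [e1, ← hv]
    simp only [dotProduct, Matrix.mulVec_diagonal, Pi.star_apply]
    refine Finset.sum_congr rfl (fun i _ => ?_)
    have e2 : star (v i) * v i = ((‖v i‖ ^ 2 : ℝ) : ℂ) := by
      have := Complex.conj_mul' (v i)
      rw [← Complex.ofReal_pow] at this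
      exact this
    calc star (v i) * (((lam i : ℝ) : ℂ) * v i) = ((lam i : ℝ) : ℂ) * (star (v i) * v i) := by ring
      _ = _ := by rw [e2]; push_cast; ring
  have hvn : ∑ i, ‖v i‖ ^ 2 = ∑ x, ‖u x‖ ^ 2 := by
    have e3 : star v ⬝ᵥ v = star u ⬝ᵥ u := by
      rw [hv, Matrix.star_mulVec]
      rw [← Matrix.star_eq_conjTranspose, star_star, ← Matrix.dotProduct_mulVec, Matrix.mulVec_mulVec, hUU', Matrix.one_mulVec]
    have e4 : ∀ w : ι → ℂ, star w ⬝ᵥ w = ((∑ x, ‖w x‖ ^ 2 : ℝ) : ℂ) := by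
      intro w
      simp only [dotProduct, Pi.star_apply]
      rw [Complex.ofReal_sum]
      refine Finset.sum_congr rfl (fun i _ => ?_)
      have := Complex.conj_mul' (w i)
      rw [← Complex.ofReal_pow] at this
      exact this
    rw [e4, e4] at e3
    exact_mod_cast e3
  have hre : (star u ⬝ᵥ (H.mulVec u)).re = ∑ i, lam i * ‖v i‖ ^ 2 := by
    rw [hq, Complex.re_sum]
    refine Finset.sum_congr rfl (fun i _ => ?_)
    rw [Complex.ofReal_re]
  rw [hre, htr]
  have hS0 : 0 ≤ S := le_trans (Finset.sum_nonneg (fun x _ => by positivity)) hu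
  -- `L = (∑ lam^k)^(1/k)`
  set T := ∑ i, lam i ^ k with hT
  have hT0 : 0 ≤ T := Finset.sum_nonneg (fun i _ => pow_nonneg (hlam0 i) k)
  set L : ℝ := T ^ ((k : ℝ)⁻¹) with hL
  have hL0 : 0 ≤ L := Real.rpow_nonneg hT0 _
  have hLk : L ^ k = T := by
    rw [hL]
    exact Real.rpow_inv_natCast_pow hT0 (by omega)
  have hlL : ∀ i, lam i ≤ L := by
    intro i
    have h1 : lam i ^ k ≤ L ^ k := by
      rw [hLk, hT]
      exact Finset.single_le_sum (f := fun i => lam i ^ k) (fun i _ => pow_nonneg (hlam0 i) k) (Finset.mem_univ i)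
    exact le_of_pow_le_pow_left₀ (by omega) hL0 h1
  have h2 : ∑ i, lam i * ‖v i‖ ^ 2 ≤ S * L := by
    calc ∑ i, lam i * ‖v i‖ ^ 2 ≤ ∑ i, L * ‖v i‖ ^ 2 :=
          Finset.sum_le_sum (fun i _ => mul_le_mul_of_nonneg_right (hlL i) (by positivity))
      _ = L * ∑ i, ‖v i‖ ^ 2 := by rw [Finset.mul_sum]
      _ ≤ L * S := by
          rw [hvn]
          exact mul_le_mul_of_nonneg_left hu hL0
      _ = S * L := by ring
  calc (∑ i, lam i * ‖v i‖ ^ 2) ^ k ≤ (S * L) ^ k :=
        pow_le_pow_left₀ (Finset.sum_nonneg (fun i _ => mul_nonneg (hlam0 i) (by positivity))) h2 k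
    _ = S ^ k * T := by rw [mul_pow, hLk]

theorem TR_nonneg {ι : Type} [Fintype ι] [DecidableEq ι] (H : Matrix ι ι ℂ) (hH : H.PosSemidef) (k : ℕ) :
    0 ≤ (H ^ k).trace.re := by
  have h := (hH.pow k).trace_nonneg
  rw [Complex.le_def] at h
  simpa using h.1

/-- phases -/
theorem TR_phase (z : ℂ) : ∃ u : ℂ, ‖u‖ ≤ 1 ∧ u * z = ((‖z‖ : ℝ) : ℂ) := by
  by_cases hz : z = 0
  · exact ⟨0, by simp, by simp [hz]⟩
  · refine ⟨(starRingEnd ℂ) z / ((‖z‖ : ℝ) : ℂ), ?_, ?_⟩
    · rw [norm_div, RCLike.norm_conj, Complex.norm_real, norm_norm, div_self]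
      exact norm_ne_zero_iff.mpr hz
    · have h0 : ((‖z‖ : ℝ) : ℂ) ≠ 0 := by
        exact_mod_cast norm_ne_zero_iff.mpr hz
      rw [div_mul_eq_mul_div, Complex.conj_mul']
      field_simp

theorem TR : TR_stmt := by
  intro α β m V W k hk
  classical
  have hps : (TR_H m V W).PosSemidef := by
    rw [TR_H_eq]
    exact Matrix.posSemidef_self_mul_conjTranspose _
  have hTT := TR_TT m V W k hk
  refine ⟨?_, ?_⟩
  · rw [hTT]
    exact TR_nonneg _ hps k
  · intro A hA B hB w hw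
    choose ph hph1 hph2 using fun x : α => TR_phase (∑ y ∈ B, w y * m x y)
    -- the vector
    set u : ↥V → ℂ := fun x => if (x : α) ∈ A then (starRingEnd ℂ) (ph x) else 0 with hu
    have hBB : ((BB m A B w : ℝ) : ℂ) = ∑ y ∈ B, w y * ∑ x ∈ A, ph x * m x y := by
      rw [BB, Complex.ofReal_sum]
      have e1 : ∀ x ∈ A, ((‖∑ y ∈ B, w y * m x y‖ : ℝ) : ℂ) = ∑ y ∈ B, w y * (ph x * m x y) := by
        intro x _
        rw [← hph2 x, Finset.mul_sum]
        refine Finset.sum_congr rfl (fun y _ => ?_)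
        ring
      rw [Finset.sum_congr rfl e1, Finset.sum_comm]
      refine Finset.sum_congr rfl (fun y _ => ?_)
      rw [Finset.mul_sum]
    have hBB0 : 0 ≤ BB m A B w := Finset.sum_nonneg (fun x _ => norm_nonneg _)
    have hBBle : BB m A B w ≤ ∑ y ∈ B, ‖∑ x ∈ A, ph x * m x y‖ := by
      have e2 : BB m A B w = ‖((BB m A B w : ℝ) : ℂ)‖ := by
        rw [Complex.norm_real, Real.norm_of_nonneg hBB0]
      rw [e2, hBB]
      refine (norm_sum_le _ _).trans (Finset.sum_le_sum (fun y _ => ?_))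
      rw [norm_mul]
      calc ‖w y‖ * ‖∑ x ∈ A, ph x * m x y‖ ≤ 1 * ‖∑ x ∈ A, ph x * m x y‖ :=
            mul_le_mul_of_nonneg_right (hw y) (norm_nonneg _)
        _ = _ := one_mul _
    have hCS : BB m A B w ^ 2 ≤ (B.card : ℝ) * ∑ y ∈ W, ‖∑ x ∈ A, ph x * m x y‖ ^ 2 := by
      calc BB m A B w ^ 2 ≤ (∑ y ∈ B, ‖∑ x ∈ A, ph x * m x y‖) ^ 2 := pow_le_pow_left₀ hBB0 hBBle 2
        _ ≤ (B.card : ℝ) * ∑ y ∈ B, ‖∑ x ∈ A, ph x * m x y‖ ^ 2 := sq_sum_le_card_mul_sum_sq
        _ ≤ (B.card : ℝ) * ∑ y ∈ W, ‖∑ x ∈ A, ph x * m x y‖ ^ 2 := by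
            refine mul_le_mul_of_nonneg_left ?_ (by positivity)
            exact Finset.sum_le_sum_of_subset_of_nonneg hB (fun y _ _ => by positivity)
    -- the quadratic form
    have hsumA : ∀ f : α → ℂ, ∑ x ∈ A, f x = ∑ x : ↥V, if (x : α) ∈ A then f x else 0 := by
      intro f
      rw [Finset.sum_coe_sort V (fun x => if x ∈ A then f x else 0), ← Finset.sum_filter]
      congr 1
      ext x
      rw [Finset.mem_filter]
      exact ⟨fun h => ⟨hA h, h⟩, fun h => h.2⟩
    have hquad : star u ⬝ᵥ ((TR_H m V W).mulVec u) = ((∑ y ∈ W, ‖∑ x ∈ A, ph x * m x y‖ ^ 2 : ℝ) : ℂ) := by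
      have e3 : ∀ y : β, ((‖∑ x ∈ A, ph x * m x y‖ ^ 2 : ℝ) : ℂ) =
          (∑ x : ↥V, star (u x) * m x y) * (∑ x : ↥V, (starRingEnd ℂ) (m x y) * u x) := by
        intro y
        have e4 : ∑ x ∈ A, ph x * m x y = ∑ x : ↥V, star (u x) * m x y := by
          rw [hsumA]
          refine Finset.sum_congr rfl (fun x _ => ?_)
          by_cases hx : (x : α) ∈ A
          · simp only [hu, if_pos hx]
            congr 1
            exact (Complex.conj_conj _).symm
          · simp only [hu, if_neg hx, star_zero, zero_mul]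
        have e5 : (starRingEnd ℂ) (∑ x : ↥V, star (u x) * m x y) = ∑ x : ↥V, (starRingEnd ℂ) (m x y) * u x := by
          rw [map_sum]
          refine Finset.sum_congr rfl (fun x _ => ?_)
          rw [map_mul, mul_comm]
          congr 1
          exact Complex.conj_conj _
        rw [e4, ← e5]
        have := Complex.mul_conj' (∑ x : ↥V, star (u x) * m x y)
        rw [← Complex.ofReal_pow] at this
        exact this.symm
      rw [Complex.ofReal_sum, Finset.sum_congr rfl (fun y _ => e3 y)]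
      have e6 : ∀ y ∈ W, (∑ x : ↥V, star (u x) * m x y) * (∑ x : ↥V, (starRingEnd ℂ) (m x y) * u x) =
          ∑ x : ↥V, ∑ x' : ↥V, star (u x) * (m x y * (starRingEnd ℂ) (m x' y)) * u x' := by
        intro y _
        rw [Finset.sum_mul_sum]
        refine Finset.sum_congr rfl (fun x _ => Finset.sum_congr rfl (fun x' _ => ?_))
        ring
      rw [Finset.sum_congr rfl e6, Finset.sum_comm]
      simp only [dotProduct, Matrix.mulVec, TR_H, Pi.star_apply]
      refine Finset.sum_congr rfl (fun x _ => ?_)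
      rw [Finset.sum_comm, Finset.mul_sum]
      refine Finset.sum_congr rfl (fun x' _ => ?_)
      rw [← Finset.sum_mul, ← Finset.mul_sum]
      ring
    have hun : ∑ x, ‖u x‖ ^ 2 ≤ (A.card : ℝ) := by
      calc ∑ x, ‖u x‖ ^ 2 ≤ ∑ x : ↥V, (if (x : α) ∈ A then (1 : ℝ) else 0) := by
            refine Finset.sum_le_sum (fun x _ => ?_)
            by_cases hx : (x : α) ∈ A
            · simp only [hu, if_pos hx, RCLike.norm_conj]
              exact pow_le_one₀ (norm_nonneg _) (hph1 x)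
            · simp only [hu, if_neg hx, norm_zero]
              norm_num
        _ = (A.card : ℝ) := by
            rw [Finset.sum_coe_sort V (fun x => if x ∈ A then (1 : ℝ) else 0), ← Finset.sum_filter]
            rw [Finset.sum_const, nsmul_eq_mul, mul_one]
            congr 2
            ext x
            rw [Finset.mem_filter]
            exact ⟨fun h => h.2, fun h => ⟨hA h, h⟩⟩
    have hfin := TR_spec (TR_H m V W) hps k hk u (A.card : ℝ) hun
    rw [hquad, Complex.ofReal_re, ← hTT] at hfin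
    calc BB m A B w ^ (2 * k) = (BB m A B w ^ 2) ^ k := by rw [pow_mul]
      _ ≤ ((B.card : ℝ) * ∑ y ∈ W, ‖∑ x ∈ A, ph x * m x y‖ ^ 2) ^ k := pow_le_pow_left₀ (by positivity) hCS k
      _ = (B.card : ℝ) ^ k * (∑ y ∈ W, ‖∑ x ∈ A, ph x * m x y‖ ^ 2) ^ k := by rw [mul_pow]
      _ ≤ (B.card : ℝ) ^ k * ((A.card : ℝ) ^ k * (TT m V W k).re) :=
          mul_le_mul_of_nonneg_left hfin (by positivity)
      _ = ((A.card : ℝ) * B.card) ^ k * (TT m V W k).re := by rw [mul_pow]; ring

end Pool.Agent.ASU
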